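import Pool.Agent.Work.MP_c4a8f9_gt.Q2

/-!
# MP_c4a8f9_gt, Q2: negative answer

There are Tychonoff (zero-dimensional) spaces `X`, `Y` such that `X` is selectively pseudocompact,
`Y` is not, and such that for EVERY abelian topological group `G` (for instance the reals, the
circle, or a finite abelian group) the topological groups `C_p(X, G)` and `C_p(Y, G)` are
topologically isomorphic and dense in `G ^ X`, `G ^ Y`.

Construction: let `I` be the set of clopen subsets of `ω × 2 ^ ω`, so that the `n`-th copy `C n` of
the Cantor space embeds in `2 ^ I`. Let `K` be the set of all `(x, t)` in `2 ^ I × 2 ^ ℝ` such that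
`t ≠ 0` or `x` is not an accumulation point of any sequence `(a n)` with `a n ∈ C n`.
Put `A n = C n × {0} ⊆ K`, let `Z` be the one-point compactification of the disjoint sum of the
`A n`, and put `X = K ⊕ Z` and `Y = (K × {ω} ∪ ⋃ n, A n × {n}) ⊕ {pt}` inside
`K × (ω + 1) ⊕ {pt}`.
-/

set_option autoImplicit false

namespace Pool.Agent.Results.MP_c4a8f9_gt.SelPseudoNotPreserved

open Pool.Agent.Work.MP_c4a8f9_gt

universe u

/-- Negative answer to Q2: selective pseudocompactness is not preserved by `G`-equivalence, for any
abelian topological group `G`; one pair of spaces works for all `G` simultaneously. -/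
theorem result : ∃ (X Y : Type) (_ : TopologicalSpace X) (_ : TopologicalSpace Y),
    T35Space X ∧ T35Space Y ∧ SelPseudocompact X ∧ ¬ SelPseudocompact Y ∧
    ∀ (G : Type u) [CommGroup G] [TopologicalSpace G] [IsTopologicalGroup G],
      Dense (Cp X G : Set (X → G)) ∧ Dense (Cp Y G : Set (Y → G)) ∧ GEquivalent G X Y :=
  main_Q2

end Pool.Agent.Results.MP_c4a8f9_gt.SelPseudoNotPreserved
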