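import Pool.Agent.Work.MP_c4a8f9_gt.Q1

/-!
# MP_c4a8f9_gt, Q1: negative answer

There are compact Hausdorff (zero-dimensional) spaces `X`, `Y` such that `X` is selectively
sequentially pseudocompact, `Y` is not, and such that for EVERY abelian topological group `G`
(for instance the reals, the circle, or a finite abelian group) the topological groups
`C_p(X, G)` and `C_p(Y, G)` are topologically isomorphic and dense in `G ^ X`, `G ^ Y`.

Construction: `K = 2 ^ (2 ^ ω)`, `k n ∈ K` the `n`-th evaluation (no subsequence converges),
`X = K ⊕ (ω + 1)` and `Y = (K × {ω} ∪ {(k n, n) : n ∈ ω}) ⊕ {pt}` inside `K × (ω + 1) ⊕ {pt}`.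
-/

set_option autoImplicit false

namespace Pool.Agent.Results.MP_c4a8f9_gt.SelSeqNotPreserved

open Pool.Agent.Work.MP_c4a8f9_gt

universe u

/-- Negative answer to Q1: selective sequential pseudocompactness is not preserved by
`G`-equivalence, for any abelian topological group `G`; one pair of compact spaces works for all
`G` simultaneously. -/
theorem result : ∃ (X Y : Type) (_ : TopologicalSpace X) (_ : TopologicalSpace Y),
    T35Space X ∧ T35Space Y ∧ CompactSpace X ∧ CompactSpace Y ∧
    SelSeqPseudocompact X ∧ ¬ SelSeqPseudocompact Y ∧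
    ∀ (G : Type u) [CommGroup G] [TopologicalSpace G] [IsTopologicalGroup G],
      Dense (Cp X G : Set (X → G)) ∧ Dense (Cp Y G : Set (Y → G)) ∧ GEquivalent G X Y :=
  main_Q1

end Pool.Agent.Results.MP_c4a8f9_gt.SelSeqNotPreserved
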